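import Pool.Agent.helper46.T7.SpecC

set_option autoImplicit false

/-!
# T7, block C, row CPS: the sum over composite numbers with large primes
-/

namespace Pool.Agent.T7

open Finset NumberField Pool.Agent.helper3.FT Pool.Agent.helper47.RA Pool.Agent.T5 Pool.Agent.T6
open Pool.Agent.helper26.T5 (nn LEMB LP HCL HGA LYT LAW)
open Pool.Agent.helper28.LT (rad)

/-- `K ^ ω(R) / R ^ 2` -/
noncomputable def CPS_psi (K : ℝ) (R : ℕ) : ℝ := K ^ R.primeFactors.card / (R : ℝ) ^ 2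

theorem CPS_psi_nonneg {K : ℝ} (hK : 1 ≤ K) (R : ℕ) : 0 ≤ CPS_psi K R := by
  unfold CPS_psi
  positivity

theorem CPS_omega {K : ℝ} (hK : 1 ≤ K) (R : ℕ) (hR : 1 ≤ R) :
    K ^ R.primeFactors.card ≤ K ^ ⌈K ^ 2⌉₊ * √(R : ℝ) := by
  set M := ⌈K ^ 2⌉₊ with hM
  have h1 : R.primeFactors.card = (R.primeFactors.filter (fun p => p < M)).card +
      (R.primeFactors.filter (fun p => ¬ p < M)).card := (Finset.card_filter_add_card_filter_not _).symm
  rw [h1, pow_add]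
  have h2 : (R.primeFactors.filter (fun p => p < M)).card ≤ M := by
    have := Finset.card_le_card (s := R.primeFactors.filter (fun p => p < M)) (t := Finset.range M) (by
      intro p hp
      exact Finset.mem_range.2 (Finset.mem_filter.1 hp).2)
    rwa [Finset.card_range] at this
  have h3 : K ^ (R.primeFactors.filter (fun p => ¬ p < M)).card ≤ √(R : ℝ) := by
    have h4 : K ^ (R.primeFactors.filter (fun p => ¬ p < M)).card ≤
        ∏ p ∈ R.primeFactors.filter (fun p => ¬ p < M), √(p : ℝ) := by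
      rw [← Finset.prod_const]
      refine Finset.prod_le_prod (fun _ _ => by linarith) fun p hp => ?_
      have h5 : M ≤ p := not_lt.1 (Finset.mem_filter.1 hp).2
      apply Real.le_sqrt_of_sq_le
      exact (Nat.le_ceil (K ^ 2)).trans (by exact_mod_cast h5)
    refine h4.trans ?_
    rw [← Real.sqrt_prod _ (fun _ _ => Nat.cast_nonneg _)]
    apply Real.sqrt_le_sqrt
    rw [← Nat.cast_prod, Nat.cast_le]
    refine (Finset.prod_le_prod_of_subset_of_one_le' (Finset.filter_subset _ _) fun p hp _ => ?_).trans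
      (Nat.le_of_dvd hR (Nat.prod_primeFactors_dvd R))
    exact (Nat.prime_of_mem_primeFactors hp).one_le
  exact mul_le_mul (pow_le_pow_right₀ hK h2) h3 (by positivity) (by positivity)

theorem CPS_bound {K : ℝ} (hK : 1 ≤ K) : ∃ C₁ : ℝ, 0 ≤ C₁ ∧ ∀ T : Finset ℕ, (∀ R ∈ T, 1 ≤ R) →
    ∑ R ∈ T, CPS_psi K R ≤ C₁ := by
  have hs : Summable (fun n : ℕ => ((n : ℝ) ^ (3 / 2 : ℝ))⁻¹) := Real.summable_nat_rpow_inv.2 (by norm_num)
  refine ⟨K ^ ⌈K ^ 2⌉₊ * ∑' n : ℕ, ((n : ℝ) ^ (3 / 2 : ℝ))⁻¹, by positivity, fun T hT => ?_⟩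
  have h1 : ∀ R ∈ T, CPS_psi K R ≤ K ^ ⌈K ^ 2⌉₊ * ((R : ℝ) ^ (3 / 2 : ℝ))⁻¹ := by
    intro R hR
    have hR1 := hT R hR
    have hR0 : (0 : ℝ) < R := by exact_mod_cast hR1
    unfold CPS_psi
    rw [div_le_iff₀ (by positivity)]
    refine (CPS_omega hK R hR1).trans (le_of_eq ?_)
    have h2 : (R : ℝ) ^ 2 = (R : ℝ) ^ (3 / 2 : ℝ) * √(R : ℝ) := by
      rw [Real.sqrt_eq_rpow, ← Real.rpow_add hR0, ← Real.rpow_natCast]
      norm_num
    rw [h2]
    have h3 : (R : ℝ) ^ (3 / 2 : ℝ) ≠ 0 := (Real.rpow_pos_of_pos hR0 _).ne'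
    field_simp
  refine (Finset.sum_le_sum h1).trans ?_
  rw [← Finset.mul_sum]
  refine mul_le_mul_of_nonneg_left ?_ (by positivity)
  exact hs.sum_le_tsum T fun n _ => by positivity

theorem CPS_two {K : ℝ} (R : ℕ) (hR : 2 ≤ (rad R).primeFactors.card) : ∃ p q m : ℕ,
    p ∈ (rad R).primeFactors ∧ q ∈ (rad R).primeFactors ∧ 1 ≤ m ∧ rad R = p * q * m ∧
    CPS_psi K (rad R) = K / (p : ℝ) ^ 2 * (K / (q : ℝ) ^ 2) * CPS_psi K m := by
  have hpf : (rad R).primeFactors = R.primeFactors :=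
    Nat.primeFactors_prod fun _ hr => Nat.prime_of_mem_primeFactors hr
  rw [hpf] at hR ⊢
  obtain ⟨p, hp, q, hq, hpq⟩ := Finset.one_lt_card.1 (show 1 < R.primeFactors.card by omega)
  have hq' : q ∈ R.primeFactors.erase p := Finset.mem_erase.2 ⟨hpq.symm, hq⟩
  have hpr : ∀ r ∈ (R.primeFactors.erase p).erase q, r.Prime := fun r hr =>
    Nat.prime_of_mem_primeFactors (Finset.mem_of_mem_erase (Finset.mem_of_mem_erase hr))
  have h3 : rad R = p * q * ∏ r ∈ (R.primeFactors.erase p).erase q, r := by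
    unfold rad
    rw [← Finset.mul_prod_erase _ _ hp, ← Finset.mul_prod_erase _ _ hq', mul_assoc]
  refine ⟨p, q, ∏ r ∈ (R.primeFactors.erase p).erase q, r, hp, hq, ?_, h3, ?_⟩
  · exact Finset.one_le_prod' fun r hr => (hpr r hr).one_le
  · have h2 : (∏ r ∈ (R.primeFactors.erase p).erase q, r).primeFactors =
        (R.primeFactors.erase p).erase q := Nat.primeFactors_prod hpr
    unfold CPS_psi
    rw [hpf, h2, h3]
    have h4 : R.primeFactors.card = ((R.primeFactors.erase p).erase q).card + 2 := by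
      have e1 := Finset.card_erase_add_one hp
      have e2 := Finset.card_erase_add_one hq'
      omega
    rw [h4, pow_add]
    push_cast
    rw [div_mul_div_comm, div_mul_div_comm]
    congr 1 <;> ring

/-- the completely multiplicative function `1 / n` -/
noncomputable def CPS_inv : ℕ →* ℝ where
  toFun n := (n : ℝ)⁻¹
  map_one' := by simp
  map_mul' a b := by push_cast; rw [mul_inv]

theorem CPS_geo (s : Finset ℕ) (hs : ∀ p ∈ s, p.Prime) (d : ℕ) (hd : 0 < d) (T : Finset ℕ)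
    (hT : ∀ f ∈ T, d ∣ f ∧ f / d ∈ Nat.factoredNumbers s) :
    ∑ f ∈ T, (f : ℝ)⁻¹ ≤ 2 ^ s.card / d := by
  classical
  have hlt : ∀ {p : ℕ}, p.Prime → ‖CPS_inv p‖ < 1 := by
    intro p hp
    show ‖((p : ℕ) : ℝ)⁻¹‖ < 1
    rw [norm_inv, Real.norm_natCast]
    exact inv_lt_one_of_one_lt₀ (by exact_mod_cast hp.one_lt)
  have h1 := (EulerProduct.summable_and_hasSum_factoredNumbers_prod_filter_prime_geometric
    (f := CPS_inv) (fun {p} hp => hlt hp) s).2
  have hfil : (s.filter fun p => p.Prime) = s := Finset.filter_true_of_mem hs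
  rw [hfil] at h1
  have h2 : ∏ p ∈ s, (1 - CPS_inv p)⁻¹ ≤ 2 ^ s.card := by
    rw [← Finset.prod_const]
    refine Finset.prod_le_prod (fun p hp => ?_) fun p hp => ?_
    · have h3 : (p : ℝ)⁻¹ ≤ 1 := inv_le_one_of_one_le₀ (by exact_mod_cast (hs p hp).one_le)
      show 0 ≤ (1 - (p : ℝ)⁻¹)⁻¹
      rw [inv_nonneg]
      linarith
    · have h3 : (p : ℝ)⁻¹ ≤ 2⁻¹ := inv_anti₀ (by norm_num) (by exact_mod_cast (hs p hp).two_le)
      show (1 - (p : ℝ)⁻¹)⁻¹ ≤ 2
      rw [inv_le_comm₀ (by linarith) (by norm_num)]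
      linarith
  have hinj : Set.InjOn (fun f => f / d) (T : Set ℕ) := by
    intro a ha b hb hab
    have ha' := (hT a ha).1
    have hb' := (hT b hb).1
    simp only [] at hab
    rw [← Nat.div_mul_cancel ha', ← Nat.div_mul_cancel hb', hab]
  have h4 : ∑ f ∈ T, (f : ℝ)⁻¹ = (d : ℝ)⁻¹ * ∑ k ∈ T.image (fun f => f / d), (k : ℝ)⁻¹ := by
    rw [Finset.sum_image hinj, Finset.mul_sum]
    refine Finset.sum_congr rfl fun f hf => ?_
    rw [← mul_inv, ← Nat.cast_mul, Nat.mul_div_cancel' (hT f hf).1]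
  have h5 : ∑ k ∈ T.image (fun f => f / d), (k : ℝ)⁻¹ ≤ ∏ p ∈ s, (1 - CPS_inv p)⁻¹ := by
    have h6 := sum_le_hasSum ((T.image (fun f => f / d)).subtype (fun m => m ∈ Nat.factoredNumbers s))
      (fun m _ => by
        show 0 ≤ (((m : ℕ)) : ℝ)⁻¹
        positivity) h1
    have h7 : ∑ m ∈ (T.image (fun f => f / d)).subtype (fun m => m ∈ Nat.factoredNumbers s),
        CPS_inv m = ∑ k ∈ T.image (fun f => f / d), (k : ℝ)⁻¹ :=
      Finset.sum_subtype_of_mem (fun k : ℕ => (k : ℝ)⁻¹) (fun k hk => by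
        obtain ⟨f, hf, rfl⟩ := Finset.mem_image.1 hk
        exact (hT f hf).2)
    rw [← h7]
    exact h6
  rw [h4, div_eq_inv_mul]
  exact mul_le_mul_of_nonneg_left (h5.trans h2) (by positivity)

theorem CPS_sq (P : ℝ) (hP : 1 ≤ P) (A : Finset ℕ) (hA : ∀ n ∈ A, P < n) :
    ∑ n ∈ A, ((n : ℝ) ^ 2)⁻¹ ≤ 2 / P := by
  have h1 : A ⊆ Finset.Ioo ⌊P⌋₊ (A.sup id + 1) := by
    intro n hn
    rw [Finset.mem_Ioo]
    refine ⟨(Nat.floor_lt (by linarith)).2 (hA n hn), ?_⟩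
    have h2 : n ≤ A.sup id := Finset.le_sup (f := id) hn
    omega
  refine (Finset.sum_le_sum_of_subset_of_nonneg h1 fun _ _ _ => by positivity).trans ?_
  refine (sum_Ioo_inv_sq_le (α := ℝ) ⌊P⌋₊ (A.sup id + 1)).trans ?_
  have h3 : P < ⌊P⌋₊ + 1 := Nat.lt_floor_add_one P
  exact div_le_div_of_nonneg_left (by norm_num) (by linarith) h3.le

theorem CPS_pf (f : ℕ) : (rad f).primeFactors = f.primeFactors :=
  Nat.primeFactors_prod fun _ hq => Nat.prime_of_mem_primeFactors hq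

theorem CPS_fac (f d : ℕ) (s : Finset ℕ) (hf : f ≠ 0) (hs : f.primeFactors ⊆ s) (hd : d ∣ f) :
    f / d ∈ Nat.factoredNumbers s := by
  have h0 : f / d ≠ 0 := by
    intro h
    apply hf
    rw [← Nat.div_mul_cancel hd, h, zero_mul]
  refine ⟨h0, fun p hp => hs ?_⟩
  rw [Nat.mem_primeFactorsList h0] at hp
  exact Nat.mem_primeFactors.2 ⟨hp.1, hp.2.trans (Nat.div_dvd_of_dvd hd), hf⟩

theorem CPS : CPS_stmt := by
  classical
  obtain ⟨C₁, hC₁, hB⟩ := CPS_bound (K := 98) (by norm_num)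
  refine ⟨196 + 196 ^ 2 * C₁, by nlinarith, fun P s hP hs => ?_⟩
  have hP0 : 0 < P := by linarith
  -- split
  have hsplit := (Finset.sum_filter_add_sum_filter_not s (fun f => f.primeFactors.card < 2)
    (fun f => (49 : ℝ) ^ f.primeFactors.card / ((f : ℝ) * rad f))).symm
  -- prime powers
  have h1 : ∑ f ∈ s.filter (fun f => f.primeFactors.card < 2),
      (49 : ℝ) ^ f.primeFactors.card / ((f : ℝ) * rad f) ≤ 196 / P ^ 2 := by
    obtain ⟨s1, hs1⟩ : ∃ s1, s1 = s.filter (fun f => f.primeFactors.card < 2) := ⟨_, rfl⟩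
    rw [← hs1]
    have hmem : ∀ f ∈ s1, f ≠ 0 ∧ (rad f).Prime ∧ f.primeFactors = {rad f} ∧ (rad f) ^ 2 ∣ f ∧ P < (rad f : ℝ) := by
      intro f hf
      rw [hs1, Finset.mem_filter] at hf
      obtain ⟨hfs, hf2⟩ := hf
      obtain ⟨h2, hnp, hPp⟩ := hs f hfs
      have h3 : f.primeFactors.card = 1 := by
        have h4 : f.primeFactors.Nonempty := Nat.nonempty_primeFactors.2 (by omega)
        have h5 := Finset.card_pos.2 h4
        omega
      obtain ⟨p, hp⟩ := Finset.card_eq_one.1 h3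
      have hrad : rad f = p := by
        unfold rad
        rw [hp, Finset.prod_singleton]
      have hpp : p.Prime := Nat.prime_of_mem_primeFactors (by rw [hp]; exact Finset.mem_singleton_self p)
      have hpf : p ∣ f := Nat.dvd_of_mem_primeFactors (by rw [hp]; exact Finset.mem_singleton_self p)
      rw [hrad]
      refine ⟨by omega, hpp, hp, ?_, hPp p hpp hpf⟩
      obtain ⟨k, hk⟩ := hpf
      have hk1 : k ≠ 1 := by
        intro h6
        rw [h6, mul_one] at hk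
        rw [hk] at hnp
        exact hnp hpp
      have hk0 : k ≠ 0 := by
        intro h6
        rw [h6, mul_zero] at hk
        omega
      obtain ⟨q, hq, hqk⟩ := Nat.exists_prime_and_dvd hk1
      have hqf : q ∈ f.primeFactors := Nat.mem_primeFactors.2 ⟨hq, by rw [hk]; exact hqk.trans (Dvd.intro_left p rfl), by omega⟩
      rw [hp, Finset.mem_singleton] at hqf
      rw [hqf] at hqk
      rw [hk, sq]
      exact Nat.mul_dvd_mul_left p hqk
    rw [← Finset.sum_fiberwise_of_maps_to (g := rad) (t := s1.image rad) (fun f hf => Finset.mem_image_of_mem rad hf)]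
    have h2 : ∀ R ∈ s1.image rad, ∑ f ∈ s1 with rad f = R, (49 : ℝ) ^ f.primeFactors.card / ((f : ℝ) * rad f) ≤
        98 / P * ((R : ℝ) ^ 2)⁻¹ := by
      intro R hR
      obtain ⟨f0, hf0, hR0⟩ := Finset.mem_image.1 hR
      obtain ⟨-, hRp, -, -, hPR⟩ := hmem f0 hf0
      rw [hR0] at hRp hPR
      have hRpos : (0 : ℝ) < R := by linarith
      have h3 : ∑ f ∈ s1 with rad f = R, (49 : ℝ) ^ f.primeFactors.card / ((f : ℝ) * rad f) =
          49 / R * ∑ f ∈ s1 with rad f = R, (f : ℝ)⁻¹ := by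
        rw [Finset.mul_sum]
        refine Finset.sum_congr rfl fun f hf => ?_
        obtain ⟨hf1, hfR⟩ := Finset.mem_filter.1 hf
        obtain ⟨hf0', -, hpf, -, -⟩ := hmem f hf1
        rw [hpf, hfR, Finset.card_singleton, pow_one]
        have : (f : ℝ) ≠ 0 := by exact_mod_cast hf0'
        field_simp
      have h4 := CPS_geo {R} (fun p hp => by rw [Finset.mem_singleton.1 hp]; exact hRp) (R ^ 2)
        (pow_pos hRp.pos 2) (s1.filter fun f => rad f = R) (fun f hf => by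
          obtain ⟨hf1, hfR⟩ := Finset.mem_filter.1 hf
          obtain ⟨hf0', -, hpf, hd, -⟩ := hmem f hf1
          rw [hfR] at hpf hd
          exact ⟨hd, CPS_fac f (R ^ 2) {R} hf0' (by rw [hpf]) hd⟩)
      rw [Finset.card_singleton, pow_one] at h4
      rw [h3]
      calc 49 / (R : ℝ) * ∑ f ∈ s1 with rad f = R, (f : ℝ)⁻¹ ≤ 49 / R * (2 / ((R ^ 2 : ℕ) : ℝ)) :=
            mul_le_mul_of_nonneg_left h4 (by positivity)
        _ = 98 / R * ((R : ℝ) ^ 2)⁻¹ := by push_cast; ring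
        _ ≤ 98 / P * ((R : ℝ) ^ 2)⁻¹ :=
            mul_le_mul_of_nonneg_right (div_le_div_of_nonneg_left (by norm_num) hP0 hPR.le) (by positivity)
    refine (Finset.sum_le_sum h2).trans ?_
    rw [← Finset.mul_sum]
    have h5 := CPS_sq P hP (s1.image rad) (fun R hR => by
      obtain ⟨f0, hf0, hR0⟩ := Finset.mem_image.1 hR
      rw [← hR0]
      exact (hmem f0 hf0).2.2.2.2)
    calc 98 / P * ∑ R ∈ s1.image rad, ((R : ℝ) ^ 2)⁻¹ ≤ 98 / P * (2 / P) :=
          mul_le_mul_of_nonneg_left h5 (by positivity)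
      _ = 196 / P ^ 2 := by ring
  -- at least two primes
  have h2 : ∑ f ∈ s.filter (fun f => ¬ f.primeFactors.card < 2),
      (49 : ℝ) ^ f.primeFactors.card / ((f : ℝ) * rad f) ≤ 196 ^ 2 * C₁ / P ^ 2 := by
    obtain ⟨s2, hs2⟩ : ∃ s2, s2 = s.filter (fun f => ¬ f.primeFactors.card < 2) := ⟨_, rfl⟩
    rw [← hs2]
    have hmem : ∀ f ∈ s2, f ≠ 0 ∧ 2 ≤ f.primeFactors.card ∧ ∀ p ∈ f.primeFactors, P < (p : ℝ) := by
      intro f hf
      rw [hs2, Finset.mem_filter] at hf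
      obtain ⟨hfs, hf2⟩ := hf
      obtain ⟨h2, hnp, hPp⟩ := hs f hfs
      exact ⟨by omega, by omega, fun p hp => hPp p (Nat.prime_of_mem_primeFactors hp) (Nat.dvd_of_mem_primeFactors hp)⟩
    rw [← Finset.sum_fiberwise_of_maps_to (g := rad) (t := s2.image rad) (fun f hf => Finset.mem_image_of_mem rad hf)]
    have h3 : ∀ R ∈ s2.image rad, ∑ f ∈ s2 with rad f = R, (49 : ℝ) ^ f.primeFactors.card / ((f : ℝ) * rad f) ≤
        CPS_psi 98 R := by
      intro R hR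
      obtain ⟨f0, hf0, hR0⟩ := Finset.mem_image.1 hR
      have hRpos : 0 < R := by
        rw [← hR0]
        exact Finset.prod_pos fun p hp => (Nat.prime_of_mem_primeFactors hp).pos
      have hRR : (0 : ℝ) < R := by exact_mod_cast hRpos
      have h4 : ∑ f ∈ s2 with rad f = R, (49 : ℝ) ^ f.primeFactors.card / ((f : ℝ) * rad f) =
          49 ^ R.primeFactors.card / R * ∑ f ∈ s2 with rad f = R, (f : ℝ)⁻¹ := by
        rw [Finset.mul_sum]
        refine Finset.sum_congr rfl fun f hf => ?_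
        obtain ⟨hf1, hfR⟩ := Finset.mem_filter.1 hf
        obtain ⟨hf0', -, -⟩ := hmem f hf1
        have hpf := CPS_pf f
        rw [hfR] at hpf
        rw [← hpf, hfR]
        have : (f : ℝ) ≠ 0 := by exact_mod_cast hf0'
        field_simp
      have h5 := CPS_geo R.primeFactors (fun p hp => Nat.prime_of_mem_primeFactors hp) R hRpos
        (s2.filter fun f => rad f = R) (fun f hf => by
          obtain ⟨hf1, hfR⟩ := Finset.mem_filter.1 hf
          obtain ⟨hf0', -, -⟩ := hmem f hf1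
          have hpf := CPS_pf f
          rw [hfR] at hpf
          have hd : R ∣ f := by
            rw [← hfR]
            exact Nat.prod_primeFactors_dvd f
          exact ⟨hd, CPS_fac f R R.primeFactors hf0' (by rw [hpf]) hd⟩)
      rw [h4]
      calc (49 : ℝ) ^ R.primeFactors.card / R * ∑ f ∈ s2 with rad f = R, (f : ℝ)⁻¹
          ≤ 49 ^ R.primeFactors.card / R * (2 ^ R.primeFactors.card / R) :=
            mul_le_mul_of_nonneg_left h5 (by positivity)
        _ = CPS_psi 98 R := by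
            unfold CPS_psi
            rw [div_mul_div_comm, ← mul_pow, sq]
            norm_num
    refine (Finset.sum_le_sum h3).trans ?_
    obtain ⟨U, hU⟩ : ∃ U, U = s2.image rad := ⟨_, rfl⟩
    rw [← hU]
    -- the decomposition
    have h4 : ∀ R : ℕ, ∃ pqm : ℕ × ℕ × ℕ, R ∈ U → P < (pqm.1 : ℝ) ∧ P < (pqm.2.1 : ℝ) ∧ 1 ≤ pqm.2.2 ∧
        R = pqm.1 * pqm.2.1 * pqm.2.2 ∧
        CPS_psi 98 R = 98 / (pqm.1 : ℝ) ^ 2 * (98 / (pqm.2.1 : ℝ) ^ 2) * CPS_psi 98 pqm.2.2 := by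
      intro R
      by_cases hR : R ∈ U
      · obtain ⟨f0, hf0, hR0⟩ := Finset.mem_image.1 (hU ▸ hR)
        obtain ⟨-, hc, hPp⟩ := hmem f0 hf0
        obtain ⟨p, q, m, hp, hq, hm, hpqm, hpsi⟩ := CPS_two (K := 98) f0 (by rw [CPS_pf]; exact hc)
        rw [CPS_pf] at hp hq
        rw [hR0] at hpqm hpsi
        exact ⟨(p, q, m), fun _ => ⟨hPp p hp, hPp q hq, hm, hpqm, hpsi⟩⟩
      · exact ⟨(0, 0, 0), fun h => absurd h hR⟩
    choose φ hφ using h4
    have h5 : ∑ R ∈ U, CPS_psi 98 R =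
        ∑ t ∈ U.image φ, 98 / (t.1 : ℝ) ^ 2 * (98 / (t.2.1 : ℝ) ^ 2) * CPS_psi 98 t.2.2 := by
      rw [Finset.sum_image (fun a ha b hb hab => by
        rw [(hφ a ha).2.2.2.1, (hφ b hb).2.2.2.1, hab])]
      exact Finset.sum_congr rfl fun R hR => (hφ R hR).2.2.2.2
    obtain ⟨A, hA⟩ : ∃ A, A = (U.image φ).image (fun t => t.1) := ⟨_, rfl⟩
    obtain ⟨B, hBd⟩ : ∃ B, B = (U.image φ).image (fun t => t.2.1) := ⟨_, rfl⟩
    obtain ⟨D, hD⟩ : ∃ D, D = (U.image φ).image (fun t => t.2.2) := ⟨_, rfl⟩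
    have hsub : U.image φ ⊆ A ×ˢ (B ×ˢ D) := by
      intro t ht
      rw [Finset.mem_product, Finset.mem_product]
      refine ⟨?_, ?_, ?_⟩
      · rw [hA]; exact Finset.mem_image_of_mem _ ht
      · rw [hBd]; exact Finset.mem_image_of_mem _ ht
      · rw [hD]; exact Finset.mem_image_of_mem _ ht
    have hAP : ∀ n ∈ A, P < (n : ℝ) := by
      intro n hn
      rw [hA] at hn
      obtain ⟨t, ht, rfl⟩ := Finset.mem_image.1 hn
      obtain ⟨R, hR, rfl⟩ := Finset.mem_image.1 ht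
      exact (hφ R hR).1
    have hBP : ∀ n ∈ B, P < (n : ℝ) := by
      intro n hn
      rw [hBd] at hn
      obtain ⟨t, ht, rfl⟩ := Finset.mem_image.1 hn
      obtain ⟨R, hR, rfl⟩ := Finset.mem_image.1 ht
      exact (hφ R hR).2.1
    have hDP : ∀ n ∈ D, 1 ≤ n := by
      intro n hn
      rw [hD] at hn
      obtain ⟨t, ht, rfl⟩ := Finset.mem_image.1 hn
      obtain ⟨R, hR, rfl⟩ := Finset.mem_image.1 ht
      exact (hφ R hR).2.2.1
    have h6 : ∑ t ∈ U.image φ, 98 / (t.1 : ℝ) ^ 2 * (98 / (t.2.1 : ℝ) ^ 2) * CPS_psi 98 t.2.2 ≤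
        ∑ t ∈ A ×ˢ (B ×ˢ D), 98 / (t.1 : ℝ) ^ 2 * (98 / (t.2.1 : ℝ) ^ 2) * CPS_psi 98 t.2.2 :=
      Finset.sum_le_sum_of_subset_of_nonneg hsub fun t _ _ =>
        mul_nonneg (by positivity) (CPS_psi_nonneg (by norm_num) _)
    have h7 : ∑ t ∈ A ×ˢ (B ×ˢ D), 98 / (t.1 : ℝ) ^ 2 * (98 / (t.2.1 : ℝ) ^ 2) * CPS_psi 98 t.2.2 =
        (98 * ∑ n ∈ A, ((n : ℝ) ^ 2)⁻¹) * ((98 * ∑ n ∈ B, ((n : ℝ) ^ 2)⁻¹) * ∑ n ∈ D, CPS_psi 98 n) := by
      rw [Finset.sum_product]
      simp only [Finset.sum_product, div_eq_mul_inv, ← Finset.mul_sum, ← Finset.sum_mul]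
      ring
    rw [h5]
    refine h6.trans ?_
    rw [h7]
    have e1 := CPS_sq P hP A hAP
    have e2 := CPS_sq P hP B hBP
    have e3 := hB D hDP
    have p1 : 0 ≤ ∑ n ∈ A, ((n : ℝ) ^ 2)⁻¹ := Finset.sum_nonneg fun _ _ => by positivity
    have p2 : 0 ≤ ∑ n ∈ B, ((n : ℝ) ^ 2)⁻¹ := Finset.sum_nonneg fun _ _ => by positivity
    have p3 : 0 ≤ ∑ n ∈ D, CPS_psi 98 n := Finset.sum_nonneg fun _ _ => CPS_psi_nonneg (by norm_num) _
    calc (98 * ∑ n ∈ A, ((n : ℝ) ^ 2)⁻¹) * ((98 * ∑ n ∈ B, ((n : ℝ) ^ 2)⁻¹) * ∑ n ∈ D, CPS_psi 98 n)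
        ≤ (98 * (2 / P)) * ((98 * (2 / P)) * C₁) := by gcongr
      _ = 196 ^ 2 * C₁ / P ^ 2 := by ring
  rw [hsplit]
  calc _ ≤ 196 / P ^ 2 + 196 ^ 2 * C₁ / P ^ 2 := add_le_add h1 h2
    _ = (196 + 196 ^ 2 * C₁) / P ^ 2 := by ring

end Pool.Agent.T7
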